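import Mathlib

set_option autoImplicit false
universe u

/-!
# A Boolean algebra of countable order dimension and uncountable algebraic dimension

For a Boolean algebra `B` the order dimension is the least number of linked families (any two members
meet) that cover `B \ {0}`, the algebraic dimension is the least number of centred families
(ultrafilters) that cover `B \ {0}`.  We use a Boolean algebra of sets that is `σ`-linked, but not
`σ`-centred: the points are the functions `x` with `x k < k + 2` for all `k`, and the algebra consists of the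
clopen sets of the topology generated by the cylinders and by the sets
`A_f = {x | x k ≠ f k for all k}`.
-/

namespace Pool.Agent.U375.ADim

open Classical in
/-- The points: functions `x` with `x k < k + 2`. -/
abbrev X : Type u := (k : ℕ) → ULift.{u} (Fin (k + 2))

/-- `y` differs from every function of `E` at every place. -/
def Av (E : Finset X.{u}) (y : X.{u}) : Prop := ∀ f ∈ E, ∀ k, y k ≠ f k

/-- The open sets. -/
def Op (a : Set X.{u}) : Prop :=
  ∀ x ∈ a, ∃ (N : ℕ) (E : Finset X.{u}), Av E x ∧ ∀ y : X.{u}, (∀ k < N, y k = x k) → Av E y → y ∈ a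

theorem Op.union {a b : Set X.{u}} (ha : Op a) (hb : Op b) : Op (a ∪ b) := by
  intro x hx
  rcases hx with hx | hx
  · obtain ⟨N, E, h1, h2⟩ := ha x hx
    exact ⟨N, E, h1, fun y h3 h4 => Or.inl (h2 y h3 h4)⟩
  · obtain ⟨N, E, h1, h2⟩ := hb x hx
    exact ⟨N, E, h1, fun y h3 h4 => Or.inr (h2 y h3 h4)⟩

theorem Op.inter {a b : Set X.{u}} (ha : Op a) (hb : Op b) : Op (a ∩ b) := by
  classical
  intro x hx
  obtain ⟨N, E, h1, h2⟩ := ha x hx.1
  obtain ⟨M, F, h3, h4⟩ := hb x hx.2
  refine ⟨max N M, E ∪ F, ?_, ?_⟩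
  · intro f hf
    rcases Finset.mem_union.1 hf with hf | hf
    · exact h1 f hf
    · exact h3 f hf
  · intro y h5 h6
    refine ⟨h2 y (fun k hk => h5 k (lt_of_lt_of_le hk (le_max_left _ _)))
      (fun f hf => h6 f (Finset.mem_union_left _ hf)),
      h4 y (fun k hk => h5 k (lt_of_lt_of_le hk (le_max_right _ _)))
      (fun f hf => h6 f (Finset.mem_union_right _ hf))⟩

/-- The Boolean algebra of the clopen sets, as a sublattice of the lattice of all sets. -/
def S : Sublattice (Set X.{u}) where
  carrier := {a | Op a ∧ Op aᶜ}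
  supClosed' := by
    intro a ha b hb
    refine ⟨ha.1.union hb.1, ?_⟩
    have : (a ⊔ b)ᶜ = aᶜ ∩ bᶜ := Set.compl_union a b
    rw [this]
    exact ha.2.inter hb.2
  infClosed' := by
    intro a ha b hb
    refine ⟨ha.1.inter hb.1, ?_⟩
    have : (a ⊓ b)ᶜ = aᶜ ∪ bᶜ := Set.compl_inter a b
    rw [this]
    exact ha.2.union hb.2

theorem mem_S {a : Set X.{u}} : a ∈ S.{u} ↔ Op a ∧ Op aᶜ := Iff.rfl

/-- Sets that depend on one coordinate only are clopen. -/
theorem coord_mem (k : ℕ) (P : ULift.{u} (Fin (k + 2)) → Prop) : {x : X.{u} | P (x k)} ∈ S.{u} := by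
  refine ⟨fun x hx => ⟨k + 1, ∅, ?_, ?_⟩, fun x hx => ⟨k + 1, ∅, ?_, ?_⟩⟩
  · intro f hf
    exact absurd hf (Finset.notMem_empty f)
  · intro y h1 _
    change P (y k)
    rw [h1 k (Nat.lt_succ_self k)]
    exact hx
  · intro f hf
    exact absurd hf (Finset.notMem_empty f)
  · intro y h1 _
    change ¬ P (y k)
    rw [h1 k (Nat.lt_succ_self k)]
    exact hx

/-- The set `A_g` of the points that differ from `g` everywhere. -/
def A (g : X.{u}) : Set X.{u} := {x | ∀ k, x k ≠ g k}

theorem A_mem (g : X.{u}) : A g ∈ S.{u} := by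
  refine ⟨fun x hx => ⟨0, {g}, ?_, ?_⟩, fun x hx => ?_⟩
  · intro f hf
    rw [Finset.mem_singleton.1 hf]
    exact hx
  · intro y _ h2
    exact h2 g (Finset.mem_singleton_self g)
  · have : ∃ k, x k = g k := by
      by_contra hcon
      push Not at hcon
      exact hx hcon
    obtain ⟨k, hk⟩ := this
    refine ⟨k + 1, ∅, fun f hf => absurd hf (Finset.notMem_empty f), ?_⟩
    intro y h1 _ h3
    exact h3 k ((h1 k (Nat.lt_succ_self k)).trans hk)

theorem A_nonempty (g : X.{u}) : (A g).Nonempty := by
  classical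
  refine ⟨fun k => if g k = ⟨0⟩ then ⟨1⟩ else ⟨0⟩, fun k => ?_⟩
  change (if g k = ⟨0⟩ then (⟨1⟩ : ULift.{u} (Fin (k + 2))) else ⟨0⟩) ≠ g k
  by_cases h : g k = ⟨0⟩
  · rw [if_pos h, h]
    intro h2
    have h3 : (1 : Fin (k + 2)) = 0 := congrArg ULift.down h2
    exact absurd h3 (by simp)
  · rw [if_neg h]
    exact fun h2 => h h2.symm

/-- The cylinder of a finite sequence. -/
def Cyl (s : List ℕ) (x : X.{u}) : Prop := ∀ k < s.length, ((x k).down : ℕ) = s.getD k 0

/-- The linked family of a finite sequence. -/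
def F (s : List ℕ) : Set (Set X.{u}) :=
  {a | ∃ E : Finset X.{u}, 2 * E.card ≤ s.length ∧ (∃ x : X.{u}, Cyl s x ∧ Av E x) ∧
    ∀ y : X.{u}, Cyl s y → Av E y → y ∈ a}

theorem F_mono {s : List ℕ} {a b : Set X.{u}} (h : a ⊆ b) (ha : a ∈ F s) : b ∈ F s := by
  obtain ⟨E, h1, h2, h3⟩ := ha
  exact ⟨E, h1, h2, fun y h4 h5 => h (h3 y h4 h5)⟩

/-- Any two members of `F s` meet. -/
theorem F_linked {s : List ℕ} {a b : Set X.{u}} (ha : a ∈ F s) (hb : b ∈ F s) : (a ∩ b).Nonempty := by
  classical
  obtain ⟨E, h1, ⟨x, hx1, hx2⟩, h3⟩ := ha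
  obtain ⟨E', h1', ⟨x', hx1', hx2'⟩, h3'⟩ := hb
  -- a point that avoids all functions of `E ∪ E'` from the place `s.length` on
  have key : ∀ k, s.length ≤ k → ∃ i : ULift.{u} (Fin (k + 2)), ∀ f ∈ E ∪ E', i ≠ f k := by
    intro k hk
    by_contra hcon
    push Not at hcon
    have hsub : (Finset.univ : Finset (ULift.{u} (Fin (k + 2)))) ⊆ (E ∪ E').image (fun f => f k) := by
      intro i _
      obtain ⟨f, hf, hfi⟩ := hcon i
      exact Finset.mem_image.2 ⟨f, hf, hfi.symm⟩
    have h4 := Finset.card_le_card hsub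
    have h5 : (Finset.univ : Finset (ULift.{u} (Fin (k + 2)))).card = k + 2 := by
      rw [Finset.card_univ, Fintype.card_ulift, Fintype.card_fin]
    have h6 : ((E ∪ E').image (fun f => f k)).card ≤ (E ∪ E').card := Finset.card_image_le
    have h7 : (E ∪ E').card ≤ E.card + E'.card := Finset.card_union_le _ _
    omega
  choose! i hi using key
  let y : X.{u} := fun k => if k < s.length then x k else i k
  have hy1 : ∀ k < s.length, y k = x k := fun k hk => if_pos hk
  have hy2 : ∀ k, s.length ≤ k → y k = i k := fun k hk => if_neg (not_lt.2 hk)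
  have hxx : ∀ k < s.length, x k = x' k := by
    intro k hk
    have e : ((x k).down : ℕ) = ((x' k).down : ℕ) := (hx1 k hk).trans (hx1' k hk).symm
    exact ULift.down_injective (Fin.ext e)
  have hyc : Cyl s y := by
    intro k hk
    rw [hy1 k hk]
    exact hx1 k hk
  refine ⟨y, h3 y hyc ?_, h3' y hyc ?_⟩
  · intro f hf k
    by_cases hk : k < s.length
    · rw [hy1 k hk]
      exact hx2 f hf k
    · rw [hy2 k (not_lt.1 hk)]
      exact hi k (not_lt.1 hk) f (Finset.mem_union_left _ hf)
  · intro f hf k
    by_cases hk : k < s.length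
    · rw [hy1 k hk, hxx k hk]
      exact hx2' f hf k
    · rw [hy2 k (not_lt.1 hk)]
      exact hi k (not_lt.1 hk) f (Finset.mem_union_right _ hf)

theorem empty_not_mem_F (s : List ℕ) : (∅ : Set X.{u}) ∉ F s := by
  intro h
  obtain ⟨y, hy, _⟩ := F_linked h h
  exact hy

/-- The families `F s` cover all nonempty open sets. -/
theorem F_cover {a : Set X.{u}} (ha : Op a) (hne : a.Nonempty) : ∃ s, a ∈ F s := by
  obtain ⟨x, hx⟩ := hne
  obtain ⟨N, E, h1, h2⟩ := ha x hx
  set M := max N (2 * E.card) with hM
  have hlen : ((List.range M).map (fun k => ((x k).down : ℕ))).length = M := by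
    rw [List.length_map, List.length_range]
  have hget : ∀ k < M, ((List.range M).map (fun k => ((x k).down : ℕ))).getD k 0 = ((x k).down : ℕ) := by
    intro k hk
    rw [List.getD_eq_getElem _ _ (by rw [hlen]; exact hk), List.getElem_map]
    exact congrArg (fun t => ((x t).down : ℕ)) (List.getElem_range _)
  refine ⟨(List.range M).map (fun k => ((x k).down : ℕ)), E, ?_, ⟨x, ?_, h1⟩, ?_⟩
  · rw [hlen]
    exact le_max_right _ _
  · intro k hk
    rw [hlen] at hk
    exact (hget k hk).symm
  · intro y h3 h4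
    refine h2 y (fun k hk => ?_) h4
    have hk' : k < M := lt_of_lt_of_le hk (le_max_left _ _)
    have h5 := h3 k (by rw [hlen]; exact hk')
    rw [hget k hk'] at h5
    exact ULift.down_injective (Fin.ext h5)

/-- The partial order of the finite sequence `s`: it extends the order of `S` and reverses all pairs
whose difference belongs to `F s`. -/
def R (s : List ℕ) (a b : S.{u}) : Prop := a ≤ b ∨ (b : Set X.{u}) \ a ∈ F s

theorem R_refl (s : List ℕ) (a : S.{u}) : R s a a := Or.inl le_rfl

theorem disj_aux {a b c : Set X.{u}} {s : List ℕ} (h1 : b \ a ∈ F s) (h2 : c \ b ∈ F s) : False := by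
  obtain ⟨y, hy1, hy2⟩ := F_linked h1 h2
  exact hy2.2 hy1.1

theorem R_trans (s : List ℕ) {a b c : S.{u}} (h1 : R s a b) (h2 : R s b c) : R s a c := by
  rcases h1 with h1 | h1 <;> rcases h2 with h2 | h2
  · exact Or.inl (h1.trans h2)
  · exact Or.inr (F_mono (Set.sdiff_subset_sdiff_right h1) h2)
  · exact Or.inr (F_mono (Set.sdiff_subset_sdiff_left h2) h1)
  · exact (disj_aux h1 h2).elim

theorem R_antisymm (s : List ℕ) {a b : S.{u}} (h1 : R s a b) (h2 : R s b a) : a = b := by
  rcases h1 with h1 | h1 <;> rcases h2 with h2 | h2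
  · exact le_antisymm h1 h2
  · rw [Set.sdiff_eq_empty.2 h1] at h2
    exact (empty_not_mem_F s h2).elim
  · rw [Set.sdiff_eq_empty.2 h2] at h1
    exact (empty_not_mem_F s h1).elim
  · exact (disj_aux h1 h2).elim

theorem exists_linear (s : List ℕ) : ∃ r : S.{u} → S.{u} → Prop, IsLinearOrder S.{u} r ∧ R s ≤ r := by
  have : IsPartialOrder S.{u} (R s) :=
    { refl := R_refl s
      trans := fun a b c => R_trans s
      antisymm := fun a b => R_antisymm s }
  exact extend_partialOrder (R s)

/-- The linear order of the finite sequence `s`. -/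
noncomputable def lin (s : List ℕ) : S.{u} → S.{u} → Prop := (exists_linear.{u} s).choose

theorem lin_isLinearOrder (s : List ℕ) : IsLinearOrder S.{u} (lin s) := (exists_linear.{u} s).choose_spec.1

theorem lin_of_R {s : List ℕ} {a b : S.{u}} (h : R s a b) : lin s a b :=
  (exists_linear.{u} s).choose_spec.2 a b h

/-- The chains. -/
def C (_ : ULift.{u} (List ℕ)) : Type u := S.{u}

noncomputable instance (j : ULift.{u} (List ℕ)) : LinearOrder (C j) where
  le := fun a b => lin j.down a b
  le_refl := fun a => (lin_isLinearOrder j.down).refl a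
  le_trans := fun a b c h1 h2 => (lin_isLinearOrder j.down).trans a b c h1 h2
  le_antisymm := fun a b h1 h2 => (lin_isLinearOrder j.down).antisymm a b h1 h2
  le_total := fun a b => (lin_isLinearOrder j.down).total a b
  toDecidableLE := Classical.decRel _

theorem le_iff_lin (a b : S.{u}) : (∀ s, lin s a b) ↔ a ≤ b := by
  constructor
  · intro h
    by_contra hab
    have hab' : ¬ (a : Set X.{u}) ⊆ (b : Set X.{u}) := hab
    have hne : ((a : Set X.{u}) \ b).Nonempty := Set.sdiff_nonempty.2 hab'
    have hop : Op ((a : Set X.{u}) \ b) := a.2.1.inter b.2.2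
    obtain ⟨s, hs⟩ := F_cover hop hne
    have h1 : lin s b a := lin_of_R (Or.inr hs)
    have h2 := (lin_isLinearOrder s).antisymm a b (h s) h1
    exact hab h2.le
  · intro h s
    exact lin_of_R (Or.inl h)

/-- The order embedding into a product of countably many chains. -/
noncomputable def emb : S.{u} ↪o ((j : ULift.{u} (List ℕ)) → C j) where
  toFun := fun a _ => a
  inj' := fun a b h => congrFun h ⟨[]⟩
  map_rel_iff' := by
    intro a b
    constructor
    · intro h
      exact (le_iff_lin a b).1 fun s => h ⟨s⟩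
    · intro h j
      exact (le_iff_lin a b).2 h j.down

/-- The whole space, as a member of the algebra. -/
def top : S.{u} := ⟨Set.univ, by simpa using coord_mem 0 (fun _ => True)⟩

/-- The empty set, as a member of the algebra. -/
def bot : S.{u} := ⟨∅, by simpa using coord_mem 0 (fun _ => False)⟩

/-- The elements that depend on the coordinate `k` only. -/
def crd (k : ℕ) (P : Fin (k + 2) → Prop) : S.{u} := ⟨{x | P (x k).down}, coord_mem k (fun i => P i.down)⟩

theorem exists_coord {D : Type u} [LinearOrder D] (f : LatticeHom S.{u} D) (k : ℕ) :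
    ∃ i : Fin (k + 2), f (crd k (fun t => t = i)) = f top := by
  by_contra hcon
  push Not at hcon
  have hle : ∀ a, f a ≤ f top := fun a => OrderHomClass.mono f (fun x _ => Set.mem_univ x)
  have hlt : ∀ i : Fin (k + 2), f (crd k (fun t => t = i)) < f top := fun i =>
    lt_of_le_of_ne (hle _) (hcon i)
  have hstep : ∀ m : ℕ, f (crd k (fun t => (t : ℕ) < m)) < f top := by
    intro m
    induction m with
    | zero =>
      refine lt_of_le_of_lt (OrderHomClass.mono f ?_) (hlt 0)
      intro x hx
      exact absurd hx (Nat.not_lt_zero _)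
    | succ m ih =>
      by_cases hm : m < k + 2
      · have e : (crd k (fun t => (t : ℕ) < m + 1) : S.{u}) =
            crd k (fun t => (t : ℕ) < m) ⊔ crd k (fun t => t = ⟨m, hm⟩) := by
          apply Subtype.ext
          ext x
          change ((x k).down : ℕ) < m + 1 ↔ (((x k).down : ℕ) < m ∨ (x k).down = ⟨m, hm⟩)
          rw [Fin.ext_iff]
          change ((x k).down : ℕ) < m + 1 ↔ (((x k).down : ℕ) < m ∨ ((x k).down : ℕ) = m)
          omega
        rw [e, map_sup]
        exact max_lt ih (hlt _)
      · refine lt_of_le_of_lt (OrderHomClass.mono f ?_) ih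
        intro x _
        exact lt_of_lt_of_le (x k).down.isLt (not_lt.1 hm)
  refine (lt_irrefl (f top)) (lt_of_le_of_lt (OrderHomClass.mono f ?_) (hstep (k + 2)))
  intro x _
  exact (x k).down.isLt

/-- There is no lattice embedding into a product of countably many chains. -/
theorem no_embedding (D : ULift.{u} (List ℕ) → Type u) [∀ j, LinearOrder (D j)]
    (f : LatticeHom S.{u} ((j : ULift.{u} (List ℕ)) → D j)) : ¬ Function.Injective f := by
  intro hinj
  have key : ∀ (j : ULift.{u} (List ℕ)) (k : ℕ),
      ∃ i : Fin (k + 2), f (crd k (fun t => t = i)) j = f top j := by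
    intro j k
    let g : LatticeHom S.{u} (D j) :=
      { toFun := fun a => f a j
        map_sup' := fun a b => by rw [map_sup]; rfl
        map_inf' := fun a b => by rw [map_inf]; rfl }
    exact exists_coord g k
  choose i hi using key
  let g : X.{u} := fun n => ⟨i ⟨Denumerable.ofNat (List ℕ) n⟩ n⟩
  have hg : f ⟨A g, A_mem g⟩ = f bot := by
    funext j
    set n := Encodable.encode j.down with hn
    have h1 : (⟨Denumerable.ofNat (List ℕ) n⟩ : ULift.{u} (List ℕ)) = j := by
      rw [hn, Denumerable.ofNat_encode]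
    have h2 : g n = ⟨i j n⟩ := by
      change (⟨i ⟨Denumerable.ofNat (List ℕ) n⟩ n⟩ : ULift.{u} (Fin (n + 2))) = ⟨i j n⟩
      rw [h1]
    have h3 : (⟨A g, A_mem g⟩ : S.{u}) ⊓ crd n (fun t => t = i j n) = bot := by
      apply Subtype.ext
      ext x
      constructor
      · intro hx
        have hx1 : x n ≠ g n := hx.1 n
        have hx2 : (x n).down = i j n := hx.2
        exact (hx1 (by rw [h2]; exact ULift.down_injective hx2)).elim
      · intro hx
        exact hx.elim
    have h4 : f (⟨A g, A_mem g⟩ ⊓ crd n (fun t => t = i j n)) j = f bot j := by rw [h3]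
    rw [map_inf] at h4
    have h5 : f ⟨A g, A_mem g⟩ j ≤ f top j :=
      (OrderHomClass.mono f (show (⟨A g, A_mem g⟩ : S.{u}) ≤ top from fun x _ => Set.mem_univ x)) j
    have h6 : (f ⟨A g, A_mem g⟩ ⊓ f (crd n (fun t => t = i j n))) j =
        f ⟨A g, A_mem g⟩ j ⊓ f top j := by
      rw [Pi.inf_apply, hi j n]
    rw [h6, inf_eq_left.2 h5] at h4
    exact h4
  have h7 := hinj hg
  obtain ⟨x, hx⟩ := A_nonempty g
  have h8 : A g = ∅ := congrArg Subtype.val h7
  rw [h8] at hx
  exact hx

end Pool.Agent.U375.ADim
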